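import Pool.Agent.Q220.DPW.Fam

/-!
Directed polymers on `ℤ^d` with a general i.i.d. environment: escape from tubes at all temperatures
simultaneously.  The definitions (walk, energy, partition function, polymer measure, cylinder) are
in `Pool/Agent/TH967/DP/Defs.lean`.
-/

set_option autoImplicit false

namespace Pool.Agent.Results.MP_7d29a1_pr.AllTemperatures

open MeasureTheory ProbabilityTheory Filter TH967.DP Pool.Agent.Q220.DPW

/-- change of temperature -/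
lemma Z_beta {d : ℕ} {β β' R ε : ℝ} {η : ℕ → (Fin d → ℤ) → ℝ} {l : ℕ} (hG : Good η l R)
    (hε : |β' - β| * (l * R) ≤ ε) (A : ℕ → Set (Fin d → ℤ)) {g : (Fin d → ℤ) → ℝ}
    (hg : ∀ y, 0 ≤ g y) :
    Z β' η A l 0 g 0 ≤ Real.exp ε * Z β η A l 0 g 0 := by
  classical
  unfold Z
  rw [Finset.mul_sum]
  apply Finset.sum_le_sum
  intro w _
  by_cases hw : InA A 0 0 w
  · rw [if_pos hw, if_pos hw, ← mul_assoc, ← Real.exp_add]
    apply mul_le_mul_of_nonneg_right _ (hg _)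
    rw [Real.exp_le_exp]
    have h0 : Reach 0 (0 : Fin d → ℤ) := fun k => by simp
    have h1 := energy_bd hG h0 (n := l) (by omega) w
    have h2 : (β' - β) * energy (shift 0 0 η) w ≤ |β' - β| * (l * R) := by
      refine (le_abs_self _).trans ?_
      rw [abs_mul]
      exact mul_le_mul_of_nonneg_left h1 (abs_nonneg _)
    have h3 : β' * energy (shift 0 0 η) w =
        β * energy (shift 0 0 η) w + (β' - β) * energy (shift 0 0 η) w := by ring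
    rw [h3]
    linarith
  · rw [if_neg hw, if_neg hw, mul_zero]

theorem main {d : ℕ} (hd : 1 ≤ d) {Ω : Type} [MeasurableSpace Ω] (P : Measure Ω)
    [IsProbabilityMeasure P] (ω : ℕ → (Fin d → ℤ) → Ω → ℝ) (h : IsEnv P ω)
    (hexp : ∀ b : ℝ, Integrable (fun x => Real.exp (b * ω 1 0 x)) P)
    (hnc : ¬ ∃ c : ℝ, ∀ᵐ x ∂P, ω 1 0 x = c) (κ lam : ℝ) (hκ : 0 < κ)
    (hκ2 : κ < 1 / ((d : ℝ) + 2)) (hlam : lam < (1 - d * κ) / 2) :
    ∃ ε : ℝ, 0 < ε ∧ ∀ᵐ x ∂P, ∀ᶠ l : ℕ in atTop, ∀ β : ℝ, (l : ℝ) ^ (-ε) ≤ β → β ≤ (l : ℝ) ^ ε →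
      ∀ n, l ≤ n → polymerProb β (fun i y => ω i y x) n (cyl d n l ((l : ℝ) ^ κ)) ≤
        Real.exp (-(l : ℝ) ^ lam) := by
  classical
  have hd2 : (0 : ℝ) < (d : ℝ) + 2 := by positivity
  have hd0 : (0 : ℝ) < d := by exact_mod_cast hd
  rw [lt_div_iff₀ hd2] at hκ2
  -- parameters
  set mx := max lam κ with hmx
  have hmx1 : lam ≤ mx := le_max_left _ _
  have hmx0 : κ ≤ mx := le_max_right _ _
  have hmx2 : mx < (1 - d * κ) / 2 := max_lt hlam (by linarith)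
  set ρ := d * κ + ((1 - d * κ) / 2 - mx) / 2 with hρ
  have hρ0 : 0 ≤ ρ := by
    have : 0 < d * κ := by positivity
    rw [hρ]; linarith
  have hρd : d * κ < ρ := by rw [hρ]; linarith
  have h1 : κ + ρ / 2 < 1 / 2 := by rw [hρ]; linarith
  set lam' := mx + ((1 - d * κ) / 2 - mx) / 2 with hlam'
  have hl1 : mx < lam' := by rw [hlam']; linarith
  have h2 : lam' + ρ / 2 < 1 / 2 := by rw [hlam', hρ]; linarith
  obtain ⟨s, hs, l0, hc⟩ := core' (v := 0) (lam := lam') hd hκ hρ0 h1 h2 (by norm_num) h hexp hnc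
  set s1 := min s 1 with hs1
  have hs10 : 0 < s1 := lt_min hs one_pos
  have hs1s : s1 ≤ s := min_le_left _ _
  have hs11 : s1 ≤ 1 := min_le_right _ _
  choose B hB1 hB2 using fun q : ℕ × ℕ => hc q.1 0 0
    ((q.1 : ℝ) ^ (-s1) + q.2 * (q.1 : ℝ) ^ (-2 : ℝ)) (boxT 0 ⌊(q.1 : ℝ) ^ κ⌋₊) 0
  set F : ℕ → Finset (ℕ × ℕ) := fun l => ({l} : Finset ℕ) ×ˢ Finset.range (l ^ 4) with hF
  have hbc1 := bc_family (P := P) F B summable_two (by
    filter_upwards [pow_exp hs 4] with l hl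
    rw [hF]
    simp only
    rw [Finset.sum_product, Finset.sum_singleton]
    refine (Finset.sum_le_sum (fun j _ => hB1 (l, j))).trans ?_
    simp only
    rw [Finset.sum_const, Finset.card_range, nsmul_eq_mul]
    push_cast
    have e : (l : ℝ) ^ (4 : ℝ) = (l : ℝ) ^ 4 := by
      rw [← Real.rpow_natCast]; norm_num
    rw [e] at hl
    exact hl)
  set K1 := ∫ x, (Real.exp (ω 1 0 x) + Real.exp (-ω 1 0 x)) ∂P with hK1
  have hK1pos : 0 ≤ K1 := integral_nonneg (fun x => by positivity)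
  have hbc2 := bc (P := P) (B := fun l => {x | ¬ Good (fun i y => ω i y x) l ((l : ℝ) ^ (1 : ℝ))})
    summable_two (by
    filter_upwards [G_dom (e := 1) one_pos hK1pos d 2] with l hl
    have hb := good_bound h hexp l ((l : ℝ) ^ (1 : ℝ))
    rw [← hK1] at hb
    have h0 : 0 ≤ (l : ℝ) * (2 * l + 1) ^ d * (K1 * Real.exp (-(l : ℝ) ^ (1 : ℝ))) := by positivity
    refine hb.trans (le_trans ?_ hl)
    linarith)
  refine ⟨s1, hs10, ?_⟩
  have p1 := pow_dom (s := d * κ) (t := ρ) hρd (3 ^ d)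
  have p2 := pow_dom (s := mx) (t := lam') hl1 3
  have p3 := pow_dom (s := 0) (t := lam') (by linarith) 3
  have p4 := (tendsto_npow (t := 1) one_pos).eventually_ge_atTop 2
  filter_upwards [hbc1, hbc2] with x hx1 hx2
  filter_upwards [hx1, hx2, p1, p2, p3, eventually_ge_atTop l0, eventually_ge_atTop 2] with
    l y1 y2 r1 r2 r3 hll0 hl2 β hβ1 hβ2 n hn
  have hlR : (2 : ℝ) ≤ l := by exact_mod_cast hl2
  have hl1R : (1 : ℝ) ≤ l := by linarith
  have hl0R : (0 : ℝ) < l := by linarith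
  -- the grid point
  set j := ⌊(β - (l : ℝ) ^ (-s1)) * (l : ℝ) ^ (2 : ℝ)⌋₊ with hj
  set β0 := (l : ℝ) ^ (-s1) + j * (l : ℝ) ^ (-2 : ℝ) with hβ0
  have hl2p : (0 : ℝ) < (l : ℝ) ^ (2 : ℝ) := by positivity
  have hll : (l : ℝ) ^ (2 : ℝ) * (l : ℝ) ^ (-2 : ℝ) = 1 := by
    rw [← Real.rpow_add hl0R]; simp
  have hlm2 : (0 : ℝ) < (l : ℝ) ^ (-2 : ℝ) := by positivity
  have hj1 : (j : ℝ) ≤ (β - (l : ℝ) ^ (-s1)) * (l : ℝ) ^ (2 : ℝ) :=
    Nat.floor_le (mul_nonneg (by linarith) hl2p.le)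
  have hj2 : (β - (l : ℝ) ^ (-s1)) * (l : ℝ) ^ (2 : ℝ) < j + 1 := Nat.lt_floor_add_one _
  have hβ01 : β0 ≤ β := by
    have := mul_le_mul_of_nonneg_right hj1 hlm2.le
    rw [mul_assoc, hll, mul_one] at this
    rw [hβ0]
    linarith
  have hβ02 : β - β0 ≤ (l : ℝ) ^ (-2 : ℝ) := by
    have := mul_le_mul_of_nonneg_right hj2.le hlm2.le
    rw [mul_assoc, hll, mul_one, add_mul, one_mul] at this
    rw [hβ0]
    linarith
  have hjl : j < l ^ 4 := by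
    have e1 : (j : ℝ) < (l : ℝ) ^ 4 := by
      have t1 : (β - (l : ℝ) ^ (-s1)) * (l : ℝ) ^ (2 : ℝ) < (l : ℝ) ^ (1 : ℝ) * (l : ℝ) ^ (2 : ℝ) := by
        apply mul_lt_mul_of_pos_right _ hl2p
        have t2 : (l : ℝ) ^ s1 ≤ (l : ℝ) ^ (1 : ℝ) := Real.rpow_le_rpow_of_exponent_le hl1R hs11
        have t3 : 0 < (l : ℝ) ^ (-s1) := by positivity
        linarith
      have t4 : (l : ℝ) ^ (1 : ℝ) * (l : ℝ) ^ (2 : ℝ) ≤ (l : ℝ) ^ 4 := by
        rw [← Real.rpow_add hl0R, ← Real.rpow_natCast]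
        apply Real.rpow_le_rpow_of_exponent_le hl1R
        norm_num
      linarith
    exact_mod_cast e1
  have hmem : (l, j) ∈ F l := by
    rw [hF]
    simp only [Finset.mem_product, Finset.mem_singleton, Finset.mem_range]
    exact ⟨trivial, hjl⟩
  have hnot := y1 (l, j) hmem
  have hβ0lo : (l : ℝ) ^ (-s) ≤ β0 := by
    have t1 : (l : ℝ) ^ (-s) ≤ (l : ℝ) ^ (-s1) :=
      Real.rpow_le_rpow_of_exponent_le hl1R (by linarith)
    have t2 : 0 ≤ (j : ℝ) * (l : ℝ) ^ (-2 : ℝ) := by positivity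
    rw [hβ0]
    linarith
  have hβ0hi : β0 ≤ (l : ℝ) ^ s :=
    hβ01.trans (hβ2.trans (Real.rpow_le_rpow_of_exponent_le hl1R hs1s))
  -- the tube
  set D := ⌊(l : ℝ) ^ κ⌋₊ with hD
  have hDle : (D : ℝ) ≤ (l : ℝ) ^ κ := Nat.floor_le (by positivity)
  have hnκ1 : (1 : ℝ) ≤ (l : ℝ) ^ κ := Real.one_le_rpow hl1R hκ.le
  have hT : Tube (boxT 0 D) (0 : ℕ → Fin d → ℤ) D ((l : ℝ) ^ ρ) 0 := by
    refine ⟨fun i y hy => mem_boxT.1 hy, fun i => ?_, fun i j => ?_⟩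
    · rw [card_boxT]
      push_cast
      calc (2 * (D : ℝ) + 1) ^ d ≤ (3 * (l : ℝ) ^ κ) ^ d := by
            apply pow_le_pow_left₀ (by positivity)
            linarith
        _ = 3 ^ d * (l : ℝ) ^ (d * κ) := by
            rw [mul_pow, mul_comm (d : ℝ) κ, Real.rpow_mul hl0R.le, Real.rpow_natCast]
        _ ≤ (l : ℝ) ^ ρ := r1
    · simp
  have hmain := hB2 (l, j) hll0 hβ0lo hβ0hi hT x hnot
  simp only at hmain
  rw [shift_zero] at hmain
  have hGood : Good (fun i y => ω i y x) l ((l : ℝ) ^ (1 : ℝ)) := not_not.1 y2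
  have hεle : |β - β0| * (l * (l : ℝ) ^ (1 : ℝ)) ≤ 1 := by
    rw [abs_of_nonneg (by linarith), Real.rpow_one]
    calc (β - β0) * (l * (l : ℝ)) ≤ (l : ℝ) ^ (-2 : ℝ) * (l * (l : ℝ)) := by gcongr
      _ = (l : ℝ) ^ (2 : ℝ) * (l : ℝ) ^ (-2 : ℝ) := by
          have : (l : ℝ) ^ (2 : ℝ) = l * (l : ℝ) := by
            rw [show (2 : ℝ) = ((2 : ℕ) : ℝ) by norm_num, Real.rpow_natCast]; ring
          rw [this]; ring
      _ ≤ 1 := hll.le
  have hεle' : |β0 - β| * (l * (l : ℝ) ^ (1 : ℝ)) ≤ 1 := by rwa [abs_sub_comm]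
  have hfinal : ∀ g : (Fin d → ℤ) → ℝ, (∀ y, 0 ≤ g y) →
      Z β (fun i y => ω i y x) (fun i => ((boxT 0 D i : Finset (Fin d → ℤ)) : Set (Fin d → ℤ)))
        l 0 g 0 ≤
        Real.exp (-(l : ℝ) ^ lam) * Z β (fun i y => ω i y x) (Full d) l 0 g 0 := by
    intro g hg
    have z1 := Z_beta (β := β0) (β' := β) hGood hεle
      (fun i => ((boxT 0 D i : Finset (Fin d → ℤ)) : Set (Fin d → ℤ))) hg
    have z2 := hmain g hg
    have z3 := Z_beta (β := β) (β' := β0) hGood hεle' (Full d) hg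
    have z0 := Z_nonneg β (fun i y => ω i y x) (Full d) l 0 hg 0
    calc Z β (fun i y => ω i y x) (fun i => ((boxT 0 D i : Finset (Fin d → ℤ)) :
          Set (Fin d → ℤ))) l 0 g 0
        ≤ Real.exp 1 * (Real.exp (-(l : ℝ) ^ lam') * (Real.exp 1 *
          Z β (fun i y => ω i y x) (Full d) l 0 g 0)) := by
          refine z1.trans ?_
          gcongr
          exact z2.trans (by gcongr)
      _ = Real.exp (2 - (l : ℝ) ^ lam') * Z β (fun i y => ω i y x) (Full d) l 0 g 0 := by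
          rw [← mul_assoc, ← mul_assoc, ← Real.exp_add, ← Real.exp_add]
          ring_nf
      _ ≤ _ := by
          apply mul_le_mul_of_nonneg_right _ z0
          rw [Real.exp_le_exp]
          have t1 : (l : ℝ) ^ lam ≤ (l : ℝ) ^ mx := Real.rpow_le_rpow_of_exponent_le hl1R hmx1
          rw [Real.rpow_zero] at r3
          linarith
  have := link_zero (β := β) (η := fun i y => ω i y x) (l := l) (n := n) hd hn hfinal
  refine le_trans (polymerProb_mono hd β _ n ?_) this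
  intro w hw i hi
  show pos w i ∈ boxT 0 D i
  rw [mem_boxT]
  intro k
  have h3 := (abs_le_euclid (pos w i) k).trans (hw i hi)
  have h4 : pos w i k - (0 : ℕ → Fin d → ℤ) i k = pos w i k := by simp
  rw [h4]
  exact int_floor h3

/-- For every dimension `d ≥ 1` and every non-constant law of the environment with all exponential
moments: (1) for `κ < 1/(d+2)` and `lam < (1-dκ)/2` there is `ε > 0` such that almost surely, at all
large scales `l`, for all inverse temperatures `β ∈ [l^(-ε), l^ε]` and all lengths `n ≥ l`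
simultaneously, the polymer measure of `max_{i≤l} ‖S_i‖ ≤ l^κ` is at most `exp(-l^lam)`; (2) there
is one null set for all `κ`, `lam` and all `β > 0`, with uniformity for `β` in compact subsets of
`(0,∞)`. -/
theorem result {d : ℕ} (hd : 1 ≤ d) {Ω : Type} [MeasurableSpace Ω] (P : Measure Ω)
    [IsProbabilityMeasure P] (ω : ℕ → (Fin d → ℤ) → Ω → ℝ)
    (hmeas : ∀ i y, Measurable (ω i y))
    (hindep : iIndepFun (fun s : ℕ × (Fin d → ℤ) => ω s.1 s.2) P)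
    (hident : ∀ i y, IdentDistrib (ω i y) (ω 1 0) P P)
    (hexp : ∀ b : ℝ, Integrable (fun x => Real.exp (b * ω 1 0 x)) P)
    (hnc : ¬ ∃ c : ℝ, ∀ᵐ x ∂P, ω 1 0 x = c) :
    (∀ κ lam : ℝ, 0 < κ → κ < 1 / ((d : ℝ) + 2) → lam < (1 - d * κ) / 2 →
      ∃ ε : ℝ, 0 < ε ∧ ∀ᵐ x ∂P, ∀ᶠ l : ℕ in atTop, ∀ β : ℝ,
        (l : ℝ) ^ (-ε) ≤ β → β ≤ (l : ℝ) ^ ε → ∀ n, l ≤ n →
          polymerProb β (fun i y => ω i y x) n (cyl d n l ((l : ℝ) ^ κ)) ≤
            Real.exp (-(l : ℝ) ^ lam)) ∧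
    (∀ᵐ x ∂P, ∀ κ lam : ℝ, 0 < κ → κ < 1 / ((d : ℝ) + 2) → lam < (1 - d * κ) / 2 →
      ∀ β₁ β₂ : ℝ, 0 < β₁ → ∀ᶠ l : ℕ in atTop, ∀ β : ℝ, β₁ ≤ β → β ≤ β₂ → ∀ n, l ≤ n →
        polymerProb β (fun i y => ω i y x) n (cyl d n l ((l : ℝ) ^ κ)) ≤
          Real.exp (-(l : ℝ) ^ lam)) := by
  have h : IsEnv P ω := ⟨hmeas, hindep, hident⟩
  refine ⟨fun κ lam hκ hκ2 hlam => main hd P ω h hexp hnc κ lam hκ hκ2 hlam, ?_⟩
  have hcount : ∀ᵐ x ∂P, ∀ q : ℚ × ℚ, 0 < (q.1 : ℝ) → (q.1 : ℝ) < 1 / ((d : ℝ) + 2) →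
      (q.2 : ℝ) < (1 - d * (q.1 : ℝ)) / 2 → ∃ ε : ℝ, 0 < ε ∧ ∀ᶠ l : ℕ in atTop, ∀ β : ℝ,
        (l : ℝ) ^ (-ε) ≤ β → β ≤ (l : ℝ) ^ ε → ∀ n, l ≤ n →
          polymerProb β (fun i y => ω i y x) n (cyl d n l ((l : ℝ) ^ (q.1 : ℝ))) ≤
            Real.exp (-(l : ℝ) ^ (q.2 : ℝ)) := by
    rw [ae_all_iff]
    intro q
    by_cases hall : 0 < (q.1 : ℝ) ∧ (q.1 : ℝ) < 1 / ((d : ℝ) + 2) ∧
        (q.2 : ℝ) < (1 - d * (q.1 : ℝ)) / 2
    · obtain ⟨ε, hε, hae⟩ := main hd P ω h hexp hnc _ _ hall.1 hall.2.1 hall.2.2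
      filter_upwards [hae] with x hx _ _ _
      exact ⟨ε, hε, hx⟩
    · exact Filter.Eventually.of_forall fun x a1 a2 a3 => absurd ⟨a1, a2, a3⟩ hall
  filter_upwards [hcount] with x hx κ lam hκ hκ2 hlam β₁ β₂ hβ₁
  have hd0 : (0 : ℝ) < d := by exact_mod_cast hd
  have hlim : κ < min (1 / ((d : ℝ) + 2)) ((1 - 2 * lam) / d) := by
    refine lt_min hκ2 ?_
    rw [lt_div_iff₀ hd0]
    linarith
  obtain ⟨κ', hκ'1, hκ'2⟩ := exists_rat_btwn hlim
  have hκ'3 : (κ' : ℝ) < 1 / ((d : ℝ) + 2) := hκ'2.trans_le (min_le_left _ _)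
  have hκ'4 : (κ' : ℝ) < (1 - 2 * lam) / d := hκ'2.trans_le (min_le_right _ _)
  have hlam2 : lam < (1 - d * (κ' : ℝ)) / 2 := by
    rw [lt_div_iff₀ hd0] at hκ'4
    linarith
  obtain ⟨lam', hlam'1, hlam'2⟩ := exists_rat_btwn hlam2
  obtain ⟨ε, hε, hev⟩ := hx (κ', lam') (hκ.trans hκ'1) hκ'3 hlam'2
  filter_upwards [hev, eventually_beta hε hβ₁, (tendsto_npow hε).eventually_ge_atTop β₂,
    eventually_ge_atTop 1] with l h1 h2 h3 hl β hβ1 hβ2 n hn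
  have hl1R : (1 : ℝ) ≤ l := by exact_mod_cast hl
  refine le_trans (polymerProb_mono hd β _ n ?_) ((h1 β (h2.1.trans hβ1) (hβ2.trans h3) n hn).trans ?_)
  · intro w hw i hi
    exact (hw i hi).trans (Real.rpow_le_rpow_of_exponent_le hl1R hκ'1.le)
  · rw [Real.exp_le_exp]
    exact neg_le_neg (Real.rpow_le_rpow_of_exponent_le hl1R hlam'1.le)

end Pool.Agent.Results.MP_7d29a1_pr.AllTemperatures
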