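import Pool.Agent.Q220.DPW.Fam

/-!
Directed polymers on `ℤ^d` with a general i.i.d. environment: roughness in every time window, for
every end point.  The definitions (walk, energy, partition function, polymer measure) are in
`Pool/Agent/TH967/DP/Defs.lean`.
-/

set_option autoImplicit false

namespace Pool.Agent.Results.MP_7d29a1_pr.EveryWindow

open MeasureTheory ProbabilityTheory Filter TH967.DP Pool.Agent.Q220.DPW

/-- the event `max_{j ≤ l} ‖S_{i+j} - S_i‖ ≤ r`: the walk is quiet in the window `[i, i+l]` -/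
def quiet (d n i l : ℕ) (r : ℝ) : Set (Fin n → Step d) :=
  {w | ∀ j ≤ l, euclid (pos w (i + j) - pos w i) ≤ r}

/-- the event `S_n = y` -/
def ends (d n : ℕ) (y : Fin d → ℤ) : Set (Fin n → Step d) := {w | pos w n = y}

lemma count {d : ℕ} : ∀ᶠ n : ℕ in atTop, ((n : ℝ) + 1) * ((2 * n + 1) ^ d * (n + 1)) *
    Real.exp (-(Real.log n) ^ (2 : ℝ)) ≤ (n : ℝ) ^ (-2 : ℝ) := by
  have h1 := (Real.tendsto_log_atTop.comp tendsto_natCast_atTop_atTop).eventually_ge_atTop
    ((d : ℝ) + 5)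
  filter_upwards [h1, eventually_ge_atTop (3 ^ (d + 2))] with n hn hn2
  have hn1 : (1 : ℝ) ≤ n := by
    have : 1 ≤ 3 ^ (d + 2) := Nat.one_le_pow _ _ (by norm_num)
    exact_mod_cast this.trans hn2
  have hn0 : (0 : ℝ) < n := by linarith
  simp only [Function.comp] at hn
  have e1 : Real.exp (-(Real.log n) ^ (2 : ℝ)) = (n : ℝ) ^ (-Real.log n) := by
    rw [Real.rpow_def_of_pos hn0]
    congr 1
    rw [show (2 : ℝ) = ((2 : ℕ) : ℝ) by norm_num, Real.rpow_natCast]
    ring
  have e2 : ((n : ℝ) + 1) * ((2 * n + 1) ^ d * (n + 1)) ≤ (3 * n) ^ (d + 2) := by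
    calc ((n : ℝ) + 1) * ((2 * n + 1) ^ d * (n + 1)) ≤ (3 * n) * ((3 * n) ^ d * (3 * n)) := by
          gcongr <;> linarith
      _ = (3 * n) ^ (d + 2) := by ring
  have e3 : ((3 : ℝ) * n) ^ (d + 2) ≤ (n : ℝ) ^ ((d : ℝ) + 3) := by
    have : (3 : ℝ) ^ (d + 2) ≤ n := by exact_mod_cast hn2
    rw [mul_pow]
    calc (3 : ℝ) ^ (d + 2) * (n : ℝ) ^ (d + 2) ≤ n * (n : ℝ) ^ (d + 2) := by gcongr
      _ = (n : ℝ) ^ ((d : ℝ) + 3) := by
          rw [show (d : ℝ) + 3 = ((d + 3 : ℕ) : ℝ) by push_cast; ring, Real.rpow_natCast]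
          ring
  calc ((n : ℝ) + 1) * ((2 * n + 1) ^ d * (n + 1)) * Real.exp (-(Real.log n) ^ (2 : ℝ))
      ≤ (n : ℝ) ^ ((d : ℝ) + 3) * (n : ℝ) ^ (-Real.log n) := by
        rw [e1]
        gcongr
        exact e2.trans e3
    _ = (n : ℝ) ^ ((d : ℝ) + 3 - Real.log n) := by rw [← Real.rpow_add hn0]; ring_nf
    _ ≤ (n : ℝ) ^ (-2 : ℝ) := Real.rpow_le_rpow_of_exponent_le hn1 (by linarith)

/-- For every dimension `d ≥ 1`, every non-constant law of the environment with all exponential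
moments and every `β > 0`: for `κ < 1/(d+2)` and `lam < (1-dκ)/2` there is `C` such that almost
surely, for all large `n`: (1) for every time window `[i, i+l] ⊆ [0,n]` with `l ≥ (log n)^C` and
every end point `y`, the polymer probability of `max_{j≤l} ‖S_{i+j} - S_i‖ ≤ l^κ`, given `S_n = y`,
is at most `exp(-l^lam)`; (2) the polymer measure of the event that this happens for some such
window is at most `n^(-p)`, for every `p` and `n ≥ n_0(p)`. -/
theorem result {d : ℕ} (hd : 1 ≤ d) {Ω : Type} [MeasurableSpace Ω] (P : Measure Ω)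
    [IsProbabilityMeasure P] (ω : ℕ → (Fin d → ℤ) → Ω → ℝ)
    (hmeas : ∀ i y, Measurable (ω i y))
    (hindep : iIndepFun (fun s : ℕ × (Fin d → ℤ) => ω s.1 s.2) P)
    (hident : ∀ i y, IdentDistrib (ω i y) (ω 1 0) P P)
    (hexp : ∀ b : ℝ, Integrable (fun x => Real.exp (b * ω 1 0 x)) P)
    (hnc : ¬ ∃ c : ℝ, ∀ᵐ x ∂P, ω 1 0 x = c) (β : ℝ) (hβ : 0 < β) (κ lam : ℝ) (hκ : 0 < κ)
    (hκ2 : κ < 1 / ((d : ℝ) + 2)) (hlam : lam < (1 - d * κ) / 2) :
    ∃ C : ℝ, 0 < C ∧ ∀ᵐ x ∂P,
      (∀ᶠ n : ℕ in atTop, ∀ i l : ℕ, (Real.log n) ^ C ≤ l → i + l ≤ n → ∀ y : Fin d → ℤ,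
        polymerProb β (fun i y => ω i y x) n (quiet d n i l ((l : ℝ) ^ κ) ∩ ends d n y) ≤
          Real.exp (-(l : ℝ) ^ lam) * polymerProb β (fun i y => ω i y x) n (ends d n y)) ∧
      ∀ p : ℝ, ∀ᶠ n : ℕ in atTop,
        polymerProb β (fun i y => ω i y x) n
          {w | ∃ i l : ℕ, (Real.log n) ^ C ≤ l ∧ i + l ≤ n ∧ w ∈ quiet d n i l ((l : ℝ) ^ κ)} ≤
          (n : ℝ) ^ (-p) := by
  classical
  have h : IsEnv P ω := ⟨hmeas, hindep, hident⟩
  have hd2 : (0 : ℝ) < (d : ℝ) + 2 := by positivity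
  have hd0 : (0 : ℝ) < d := by exact_mod_cast hd
  rw [lt_div_iff₀ hd2] at hκ2
  set mx := max lam κ with hmx
  have hmx1 : lam ≤ mx := le_max_left _ _
  have hmx0 : κ ≤ mx := le_max_right _ _
  have hmxp : 0 < mx := by linarith
  have hmx2 : mx < (1 - d * κ) / 2 := max_lt hlam (by linarith)
  set ρ := d * κ + ((1 - d * κ) / 2 - mx) / 2 with hρ
  have hρ0 : 0 ≤ ρ := by
    have : 0 < d * κ := by positivity
    rw [hρ]; linarith
  have hρd : d * κ < ρ := by rw [hρ]; linarith
  have h1 : κ + ρ / 2 < 1 / 2 := by rw [hρ]; linarith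
  have h2 : mx + ρ / 2 < 1 / 2 := by rw [hρ]; linarith
  obtain ⟨s, hs, l0, hc⟩ := core' (v := 0) (lam := mx) hd hκ hρ0 h1 h2 (by norm_num) h hexp hnc
  set C := max (2 / s) (2 / mx) with hC
  have hC0 : 0 < C := lt_of_lt_of_le (by positivity) (le_max_left _ _)
  have hCs : 2 ≤ C * s := by
    have : 2 / s ≤ C := le_max_left _ _
    rwa [div_le_iff₀ hs] at this
  have hCm : 2 ≤ C * mx := by
    have : 2 / mx ≤ C := le_max_right _ _
    rwa [div_le_iff₀ hmxp] at this
  -- bad sets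
  choose B hB1 hB2 using fun q : ℕ × (Fin d → ℤ) × ℕ => hc q.2.2 q.1 q.2.1 β
    (boxT 0 ⌊(q.2.2 : ℝ) ^ κ⌋₊) 0
  set Bx : ℕ → Finset (Fin d → ℤ) := fun n =>
    Finset.Icc (fun _ : Fin d => -(n : ℤ)) (fun _ => (n : ℤ)) with hBx
  set F : ℕ → Finset (ℕ × (Fin d → ℤ) × ℕ) := fun n => (Finset.range (n + 1)) ×ˢ
    ((Bx n) ×ˢ ((Finset.range (n + 1)).filter (fun l : ℕ => (Real.log n) ^ C ≤ l))) with hF
  have hlogpow : ∀ {n l : ℕ} {a : ℝ}, 3 ≤ n → (Real.log n) ^ C ≤ l → 0 < a → 2 ≤ C * a →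
      (Real.log n) ^ (2 : ℝ) ≤ (l : ℝ) ^ a := by
    intro n l a hn hl ha hCa
    have hlog1 : 1 ≤ Real.log n := by
      rw [← Real.log_exp 1]
      apply Real.log_le_log (Real.exp_pos 1)
      have h3 : (3 : ℝ) ≤ n := by exact_mod_cast hn
      have := Real.exp_one_lt_d9
      linarith
    calc (Real.log n) ^ (2 : ℝ) ≤ (Real.log n) ^ (C * a) :=
          Real.rpow_le_rpow_of_exponent_le hlog1 hCa
      _ = ((Real.log n) ^ C) ^ a := Real.rpow_mul (by linarith) _ _
      _ ≤ (l : ℝ) ^ a := Real.rpow_le_rpow (by positivity) hl ha.le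
  have hbc := bc_family (P := P) F B summable_two (by
    filter_upwards [count (d := d), eventually_ge_atTop 3] with n hn hn3
    have hb : ∀ q ∈ F n, P.real (B q) ≤ Real.exp (-(Real.log n) ^ (2 : ℝ)) := by
      intro q hq
      rw [hF] at hq
      simp only [Finset.mem_product, Finset.mem_filter] at hq
      refine (hB1 q).trans ?_
      rw [Real.exp_le_exp]
      exact neg_le_neg (hlogpow hn3 hq.2.2.2 hs hCs)
    refine (Finset.sum_le_sum hb).trans ?_
    rw [Finset.sum_const, nsmul_eq_mul]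
    refine le_trans ?_ hn
    apply mul_le_mul_of_nonneg_right _ (Real.exp_pos _).le
    have hcard : (F n).card ≤ (n + 1) * ((2 * n + 1) ^ d * (n + 1)) := by
      rw [hF]
      simp only
      rw [Finset.card_product, Finset.card_product, Finset.card_range]
      have e1 : (Bx n).card = (2 * n + 1) ^ d := card_box d n
      rw [e1]
      apply Nat.mul_le_mul_left
      apply Nat.mul_le_mul_left
      exact (Finset.card_filter_le _ _).trans (by rw [Finset.card_range])
    exact_mod_cast hcard)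
  refine ⟨C, hC0, ?_⟩
  -- thresholds in `l`
  have p1 := pow_dom (s := d * κ) (t := ρ) hρd (3 ^ d)
  obtain ⟨l1, hl1⟩ := eventually_atTop.1 (p1.and ((eventually_beta hs hβ).and
    ((eventually_ge_atTop l0).and (eventually_ge_atTop 1))))
  have hlogtend : Tendsto (fun n : ℕ => (Real.log n) ^ C) atTop atTop :=
    (tendsto_rpow_atTop hC0).comp (Real.tendsto_log_atTop.comp tendsto_natCast_atTop_atTop)
  filter_upwards [hbc] with x hx
  have key : ∀ᶠ n : ℕ in atTop, ∀ i l : ℕ, (Real.log n) ^ C ≤ l → i + l ≤ n →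
      ∀ E : Set (Fin d → ℤ),
      polymerProb β (fun i y => ω i y x) n (quiet d n i l ((l : ℝ) ^ κ) ∩ {w | pos w n ∈ E}) ≤
        Real.exp (-(l : ℝ) ^ mx) * polymerProb β (fun i y => ω i y x) n {w | pos w n ∈ E} := by
    filter_upwards [hx, hlogtend.eventually_ge_atTop (l1 : ℝ), eventually_ge_atTop 3] with
      n hxn hnl1 hn3 i l hlC hil E
    have hll1 : l1 ≤ l := by
      have : (l1 : ℝ) ≤ l := hnl1.trans hlC
      exact_mod_cast this
    obtain ⟨r1, r2, r3, r4⟩ := hl1 l hll1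
    have hl1R : (1 : ℝ) ≤ l := by exact_mod_cast r4
    have hl0R : (0 : ℝ) < l := by linarith
    set D := ⌊(l : ℝ) ^ κ⌋₊ with hD
    have hDle : (D : ℝ) ≤ (l : ℝ) ^ κ := Nat.floor_le (by positivity)
    have hnκ1 : (1 : ℝ) ≤ (l : ℝ) ^ κ := Real.one_le_rpow hl1R hκ.le
    have hT : Tube (boxT 0 D) (0 : ℕ → Fin d → ℤ) D ((l : ℝ) ^ ρ) 0 := by
      refine ⟨fun i y hy => mem_boxT.1 hy, fun i => ?_, fun i j => ?_⟩
      · rw [card_boxT]
        push_cast
        calc (2 * (D : ℝ) + 1) ^ d ≤ (3 * (l : ℝ) ^ κ) ^ d := by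
              apply pow_le_pow_left₀ (by positivity)
              linarith
          _ = 3 ^ d * (l : ℝ) ^ (d * κ) := by
              rw [mul_pow, mul_comm (d : ℝ) κ, Real.rpow_mul hl0R.le, Real.rpow_natCast]
          _ ≤ (l : ℝ) ^ ρ := r1
      · simp
    obtain ⟨r, rfl⟩ : ∃ r, n = i + (l + r) := ⟨n - i - l, by omega⟩
    have hlink := link_prob (β := β) (δ := Real.exp (-(l : ℝ) ^ mx)) (η := fun i y => ω i y x)
      (A := fun j => ((boxT 0 D j : Finset (Fin d → ℤ)) : Set (Fin d → ℤ))) (t := i) (l := l)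
      (r := r) hd (by
        intro z hz g hg
        have hmem : (i, z, l) ∈ F (i + (l + r)) := by
          rw [hF]
          simp only [Finset.mem_product, Finset.mem_filter, Finset.mem_range]
          refine ⟨by omega, ?_, by omega, hlC⟩
          show z ∈ Finset.Icc _ _
          rw [mem_box]
          intro k
          refine (hz k).trans ?_
          exact_mod_cast (show i ≤ i + (l + r) by omega)
        exact hB2 (i, z, l) r3 r2.1 r2.2 hT x (hxn _ hmem) g hg) E
    refine le_trans (polymerProb_mono hd β _ _ ?_) hlink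
    rintro w ⟨hw1, hw2⟩
    refine ⟨fun j hj => ?_, hw2⟩
    show pos w (i + j) - pos w i ∈ boxT 0 D j
    rw [mem_boxT]
    intro k
    have h3 := (abs_le_euclid (pos w (i + j) - pos w i) k).trans (hw1 j hj)
    have h4 : (pos w (i + j) - pos w i) k - (0 : ℕ → Fin d → ℤ) j k =
        (pos w (i + j) - pos w i) k := by simp
    rw [h4]
    exact int_floor h3
  refine ⟨?_, fun p => ?_⟩
  · filter_upwards [key, eventually_ge_atTop 3, hlogtend.eventually_ge_atTop 1] with
      n hn hn3 hn1 i l hlC hil y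
    have h3 := hn i l hlC hil {y}
    have hl1R : (1 : ℝ) ≤ l := hn1.trans hlC
    refine h3.trans ?_
    apply mul_le_mul_of_nonneg_right _ (polymerProb_nonneg hd β _ n _)
    rw [Real.exp_le_exp]
    exact neg_le_neg (Real.rpow_le_rpow_of_exponent_le hl1R hmx1)
  · have hlogt : Tendsto (fun n : ℕ => Real.log n) atTop atTop :=
      Real.tendsto_log_atTop.comp tendsto_natCast_atTop_atTop
    filter_upwards [key, eventually_ge_atTop 3, hlogt.eventually_ge_atTop (p + 4)] with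
      n hn hn3 hnp
    have hnR : (3 : ℝ) ≤ n := by exact_mod_cast hn3
    have hn0 : (0 : ℝ) < n := by linarith
    set S : Finset (ℕ × ℕ) := ((Finset.range (n + 1)) ×ˢ (Finset.range (n + 1))).filter
      (fun q => (Real.log n) ^ C ≤ q.2 ∧ q.1 + q.2 ≤ n) with hS
    have hsub : ∀ w : Fin n → Step d,
        ({w | ∃ i l : ℕ, (Real.log n) ^ C ≤ l ∧ i + l ≤ n ∧ w ∈ quiet d n i l ((l : ℝ) ^ κ)} :
          Set (Fin n → Step d)).indicator
          (fun w => Real.exp (β * energy (fun i y => ω i y x) w)) w ≤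
        ∑ q ∈ S, (quiet d n q.1 q.2 ((q.2 : ℝ) ^ κ)).indicator
          (fun w => Real.exp (β * energy (fun i y => ω i y x) w)) w := by
      intro w
      have hnn : ∀ q ∈ S, 0 ≤ (quiet d n q.1 q.2 ((q.2 : ℝ) ^ κ)).indicator
          (fun w => Real.exp (β * energy (fun i y => ω i y x) w)) w :=
        fun q _ => Set.indicator_nonneg (fun _ _ => (Real.exp_pos _).le) _
      rw [Set.indicator_apply]
      split_ifs with hw
      · obtain ⟨i, l, hw1, hw2, hw3⟩ := hw
        have hmem : (i, l) ∈ S := by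
          rw [hS]
          simp only [Finset.mem_filter, Finset.mem_product, Finset.mem_range]
          exact ⟨⟨by omega, by omega⟩, hw1, hw2⟩
        refine le_trans (le_of_eq ?_) (Finset.single_le_sum hnn hmem)
        simp only
        rw [Set.indicator_of_mem hw3]
      · exact Finset.sum_nonneg hnn
    have hone : ∀ q ∈ S, polymerProb β (fun i y => ω i y x) n
        (quiet d n q.1 q.2 ((q.2 : ℝ) ^ κ)) ≤ Real.exp (-(Real.log n) ^ (2 : ℝ)) := by
      intro q hq
      rw [hS] at hq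
      simp only [Finset.mem_filter, Finset.mem_product, Finset.mem_range] at hq
      have h3 := hn q.1 q.2 hq.2.1 hq.2.2 Set.univ
      have e0 : polymerProb β (fun i y => ω i y x) n {w | pos w n ∈ (Set.univ : Set (Fin d → ℤ))}
          = 1 := by
        have : {w : Fin n → Step d | pos w n ∈ (Set.univ : Set (Fin d → ℤ))} = Set.univ := by
          ext w; simp
        rw [this]
        exact polymerProb_univ hd β _ _
      rw [e0, mul_one] at h3
      have e1 : quiet d n q.1 q.2 ((q.2 : ℝ) ^ κ) ∩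
          {w | pos w n ∈ (Set.univ : Set (Fin d → ℤ))} = quiet d n q.1 q.2 ((q.2 : ℝ) ^ κ) := by
        ext w; simp
      rw [e1] at h3
      refine h3.trans ?_
      rw [Real.exp_le_exp]
      exact neg_le_neg (hlogpow hn3 hq.2.1 hmxp hCm)
    have hsum : polymerProb β (fun i y => ω i y x) n
        {w | ∃ i l : ℕ, (Real.log n) ^ C ≤ l ∧ i + l ≤ n ∧ w ∈ quiet d n i l ((l : ℝ) ^ κ)} ≤
        ∑ q ∈ S, polymerProb β (fun i y => ω i y x) n (quiet d n q.1 q.2 ((q.2 : ℝ) ^ κ)) := by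
      simp_rw [polymerProb_eq hd]
      rw [← Finset.sum_div]
      apply div_le_div_of_nonneg_right _ (ZF_pos hd β _ n).le
      rw [Finset.sum_comm]
      exact Finset.sum_le_sum fun w _ => hsub w
    refine hsum.trans ((Finset.sum_le_sum hone).trans ?_)
    rw [Finset.sum_const, nsmul_eq_mul]
    have hSc : (S.card : ℝ) ≤ (n : ℝ) ^ (4 : ℝ) := by
      have h3 : S.card ≤ (n + 1) * (n + 1) := by
        rw [hS]
        refine (Finset.card_filter_le _ _).trans ?_
        rw [Finset.card_product, Finset.card_range]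
      have h4 : (S.card : ℝ) ≤ ((n : ℝ) + 1) * (n + 1) := by exact_mod_cast h3
      refine h4.trans ?_
      rw [show (4 : ℝ) = ((4 : ℕ) : ℝ) by norm_num, Real.rpow_natCast]
      have h5 : (n : ℝ) + 1 ≤ n * n := by nlinarith
      calc ((n : ℝ) + 1) * (n + 1) ≤ (n * n) * (n * n) := by gcongr
        _ = (n : ℝ) ^ 4 := by ring
    have e1 : Real.exp (-(Real.log n) ^ (2 : ℝ)) = (n : ℝ) ^ (-Real.log n) := by
      rw [Real.rpow_def_of_pos hn0]
      congr 1
      rw [show (2 : ℝ) = ((2 : ℕ) : ℝ) by norm_num, Real.rpow_natCast]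
      ring
    calc (S.card : ℝ) * Real.exp (-(Real.log n) ^ (2 : ℝ))
        ≤ (n : ℝ) ^ (4 : ℝ) * (n : ℝ) ^ (-Real.log n) := by
          rw [e1]
          gcongr
      _ = (n : ℝ) ^ (4 - Real.log n) := by rw [← Real.rpow_add hn0]; ring_nf
      _ ≤ (n : ℝ) ^ (-p) := Real.rpow_le_rpow_of_exponent_le (by linarith) (by linarith)

end Pool.Agent.Results.MP_7d29a1_pr.EveryWindow
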