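import Pool.Agent.Q220.DPW.Fam

/-!
Directed polymers on `ℤ^d` with a general i.i.d. environment: the polymer does not follow any
polygonal line with few corners, whether or not it depends on the environment.  The definitions
(walk, energy, partition function, polymer measure) are in `Pool/Agent/TH967/DP/Defs.lean`.
-/

set_option autoImplicit false

namespace Pool.Agent.Results.MP_7d29a1_pr.PolygonalLines

open MeasureTheory ProbabilityTheory Filter TH967.DP Pool.Agent.Q220.DPW
open Classical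

/-- the times in `(0, l)` at which `φ` has a corner -/
noncomputable def corners {d : ℕ} (l : ℕ) (φ : ℕ → Fin d → ℝ) : Finset ℕ :=
  (Finset.Ioo 0 l).filter (fun i => ¬ ∀ k, φ (i + 1) k + φ (i - 1) k = 2 * φ i k)

/-- polygonal lines on `[0, l]` with at most `N` corners and `ℓ¹`-speed at most `v` -/
structure Polygonal {d : ℕ} (l : ℕ) (N v : ℝ) (φ : ℕ → Fin d → ℝ) : Prop where
  corn : ((corners l φ).card : ℝ) ≤ N
  speed : ∀ i < l, ∑ k, |φ (i + 1) k - φ i k| ≤ v

/-- the walks of `n` steps which stay, up to time `l`, within sup-distance `r` of some polygonal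
line with at most `N` corners and speed at most `v` -/
def near (d n l : ℕ) (N v r : ℝ) : Set (Fin n → Step d) :=
  {w | ∃ φ : ℕ → Fin d → ℝ, Polygonal l N v φ ∧ ∀ i ≤ l, ∀ k, |(pos w i k : ℝ) - φ i k| ≤ r}

lemma max_principle {h : ℕ → ℝ} {l : ℕ} {T : Finset ℕ} (h0 : 0 ∈ T) (hl : l ∈ T)
    (hT : ∀ i ∈ T, i ≤ l → h i ≤ 1)
    (hh : ∀ i, 0 < i → i < l → i ∉ T → h (i + 1) + h (i - 1) = 2 * h i) :
    ∀ i ≤ l, h i ≤ 1 := by
  by_contra hcon
  push Not at hcon
  obtain ⟨j, hj, hj1⟩ := hcon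
  obtain ⟨m, hm, hmax⟩ := Finset.exists_max_image (Finset.range (l + 1)) h ⟨j, by
    rw [Finset.mem_range]; omega⟩
  have hm1 : 1 < h m := lt_of_lt_of_le hj1 (hmax j (by rw [Finset.mem_range]; omega))
  set S := (Finset.range (l + 1)).filter (fun i => h i = h m) with hS
  have hSne : S.Nonempty := ⟨m, Finset.mem_filter.2 ⟨hm, rfl⟩⟩
  set i := S.min' hSne with hi
  have hiS : i ∈ S := S.min'_mem hSne
  obtain ⟨hi1, hi2⟩ := Finset.mem_filter.1 hiS
  rw [Finset.mem_range] at hi1
  have hiT : i ∉ T := by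
    intro hmem
    have := hT i hmem (by omega)
    linarith
  have hi0 : 0 < i := by
    rcases Nat.eq_zero_or_pos i with h3 | h3
    · rw [h3] at hiT
      exact absurd h0 hiT
    · exact h3
  have hil : i < l := by
    rcases Nat.lt_or_ge i l with h3 | h3
    · exact h3
    · have : i = l := by omega
      rw [this] at hiT
      exact absurd hl hiT
  have e := hh i hi0 hil hiT
  have h1 := hmax (i + 1) (by rw [Finset.mem_range]; omega)
  have h2 := hmax (i - 1) (by rw [Finset.mem_range]; omega)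
  have h3 : h (i - 1) ≠ h m := by
    intro he
    have hmem : i - 1 ∈ S := Finset.mem_filter.2 ⟨by rw [Finset.mem_range]; omega, he⟩
    have := S.min'_le _ hmem
    omega
  have h4 : h (i - 1) < h m := lt_of_le_of_ne h2 h3
  linarith

/-- corners and end points -/
noncomputable def cor {d : ℕ} (l : ℕ) (φ : ℕ → Fin d → ℝ) : Finset ℕ :=
  insert 0 (insert l (corners l φ))

/-- the corners with the integer parts of the positions -/
noncomputable def dat {d : ℕ} (l : ℕ) (φ : ℕ → Fin d → ℝ) : Finset (ℕ × (Fin d → ℤ)) :=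
  (cor l φ).image (fun i => (i, fun k => ⌊φ i k⌋))

lemma cor_eq {d l : ℕ} {φ : ℕ → Fin d → ℝ} : cor l φ = (dat l φ).image Prod.fst := by
  unfold dat
  rw [Finset.image_image]
  simp only [Function.comp_def, Finset.image_id']

lemma dat_close {d l : ℕ} {φ ψ : ℕ → Fin d → ℝ} (h : dat l φ = dat l ψ) :
    ∀ i ≤ l, ∀ k, |φ i k - ψ i k| ≤ 1 := by
  have hc : cor l φ = cor l ψ := by rw [cor_eq, cor_eq, h]
  have hv : ∀ i ∈ cor l φ, ∀ k, |φ i k - ψ i k| ≤ 1 := by
    intro i hi k
    have h1 : (i, fun k => ⌊φ i k⌋) ∈ dat l ψ := by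
      rw [← h]
      exact Finset.mem_image_of_mem _ hi
    obtain ⟨j, _, hj2⟩ := Finset.mem_image.1 h1
    simp only [Prod.mk.injEq] at hj2
    obtain ⟨rfl, hj3⟩ := hj2
    have h2 := congrFun hj3 k
    have a1 := Int.floor_le (φ j k)
    have a2 := Int.lt_floor_add_one (φ j k)
    have a3 := Int.floor_le (ψ j k)
    have a4 := Int.lt_floor_add_one (ψ j k)
    rw [h2] at a3 a4
    rw [abs_le]
    constructor <;> linarith
  have hflat : ∀ χ : ℕ → Fin d → ℝ, cor l χ = cor l φ → ∀ i, 0 < i → i < l → i ∉ cor l φ → ∀ k,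
      χ (i + 1) k + χ (i - 1) k = 2 * χ i k := by
    intro χ hχ i hi0 hil hi
    rw [← hχ] at hi
    unfold cor corners at hi
    simp only [Finset.mem_insert, Finset.mem_filter, Finset.mem_Ioo, not_or, not_and, not_not] at hi
    exact hi.2.2 ⟨hi0, hil⟩
  have h0 : 0 ∈ cor l φ := by unfold cor; simp
  have hl : l ∈ cor l φ := by unfold cor; simp
  intro i hi k
  have h1 := max_principle (h := fun i => φ i k - ψ i k) h0 hl
    (fun i hi _ => (abs_le.1 (hv i hi k)).2) (fun i hi0 hil hi => by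
      have e1 := hflat φ rfl i hi0 hil hi k
      have e2 := hflat ψ hc.symm i hi0 hil hi k
      linarith) i hi
  have h2 := max_principle (h := fun i => ψ i k - φ i k) h0 hl
    (fun i hi _ => by have := (abs_le.1 (hv i hi k)).1; linarith)
    (fun i hi0 hil hi => by
      have e1 := hflat φ rfl i hi0 hil hi k
      have e2 := hflat ψ hc.symm i hi0 hil hi k
      linarith) i hi
  rw [abs_le]
  constructor <;> linarith

/-- number of small subsets -/
lemma card_small {α : Type*} (U : Finset α) (m : ℕ) :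
    (U.powerset.filter (fun s => s.card ≤ m)).card ≤ (U.card + 1) ^ m := by
  induction m with
  | zero =>
    have : U.powerset.filter (fun s => s.card ≤ 0) ⊆ {∅} := by
      intro s hs
      have := (Finset.mem_filter.1 hs).2
      rw [Finset.mem_singleton]
      exact Finset.card_eq_zero.1 (by omega)
    refine (Finset.card_le_card this).trans ?_
    simp
  | succ m ih =>
    have hsub : U.powerset.filter (fun s => s.card ≤ m + 1) ⊆
        (U.powerset.filter (fun s => s.card ≤ m)) ∪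
          (U ×ˢ (U.powerset.filter (fun s => s.card ≤ m))).image (fun q => insert q.1 q.2) := by
      intro s hs
      obtain ⟨hs1, hs2⟩ := Finset.mem_filter.1 hs
      rw [Finset.mem_powerset] at hs1
      rw [Finset.mem_union]
      rcases s.eq_empty_or_nonempty with h | ⟨a, ha⟩
      · left
        rw [h]
        simp
      · right
        rw [Finset.mem_image]
        refine ⟨(a, s.erase a), ?_, Finset.insert_erase ha⟩
        rw [Finset.mem_product]
        refine ⟨hs1 ha, ?_⟩
        rw [Finset.mem_filter, Finset.mem_powerset]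
        refine ⟨(Finset.erase_subset _ _).trans hs1, ?_⟩
        rw [Finset.card_erase_of_mem ha]
        omega
    calc (U.powerset.filter (fun s => s.card ≤ m + 1)).card
        ≤ _ := Finset.card_le_card hsub
      _ ≤ _ := Finset.card_union_le _ _
      _ ≤ (U.powerset.filter (fun s => s.card ≤ m)).card +
          U.card * (U.powerset.filter (fun s => s.card ≤ m)).card := by
          gcongr
          refine Finset.card_image_le.trans ?_
          rw [Finset.card_product]
      _ = (U.card + 1) * (U.powerset.filter (fun s => s.card ≤ m)).card := by ring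
      _ ≤ (U.card + 1) * (U.card + 1) ^ m := Nat.mul_le_mul_left _ ih
      _ = (U.card + 1) ^ (m + 1) := by ring

lemma speed_sum {d l : ℕ} {N v : ℝ} {φ : ℕ → Fin d → ℝ} (h : Polygonal l N v φ) (i : ℕ) :
    ∀ j, i + j ≤ l → ∑ k, |φ (i + j) k - φ i k| ≤ v * j := by
  intro j
  induction j with
  | zero =>
    intro _
    simp
  | succ j ih =>
    intro hj
    have h1 := ih (by omega)
    have h2 := h.speed (i + j) (by omega)
    calc ∑ k, |φ (i + (j + 1)) k - φ i k|
        ≤ ∑ k, (|φ (i + j + 1) k - φ (i + j) k| + |φ (i + j) k - φ i k|) := by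
          apply Finset.sum_le_sum
          intro k _
          rw [← add_assoc]
          exact abs_sub_le _ _ _
      _ ≤ v + v * j := by
          rw [Finset.sum_add_distrib]
          exact add_le_add h2 h1
      _ = v * ((j + 1 : ℕ) : ℝ) := by push_cast; ring

/-- the integer part of a polygonal line -/
noncomputable def fl {d : ℕ} (φ : ℕ → Fin d → ℝ) : ℕ → Fin d → ℤ := fun i k => ⌊φ i k⌋

lemma fl_speed {d l : ℕ} {N v : ℝ} {φ : ℕ → Fin d → ℝ} (h : Polygonal l N v φ) :
    ∀ i j, i ≤ j → j ≤ l → ((∑ k, |fl φ j k - fl φ i k| : ℤ) : ℝ) ≤ v * (j - i) + 2 * d := by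
  intro i j hij hjl
  obtain ⟨r, rfl⟩ := Nat.exists_eq_add_of_le hij
  have h1 := speed_sum h i r hjl
  push_cast
  have h2 : ∀ k, |((fl φ (i + r) k : ℤ) : ℝ) - (fl φ i k : ℤ)| ≤ |φ (i + r) k - φ i k| + 1 := by
    intro k
    unfold fl
    have a1 := Int.floor_le (φ (i + r) k)
    have a2 := Int.lt_floor_add_one (φ (i + r) k)
    have a3 := Int.floor_le (φ i k)
    have a4 := Int.lt_floor_add_one (φ i k)
    have a5 := abs_le.1 (le_refl |φ (i + r) k - φ i k|)
    rw [abs_le]
    constructor <;> linarith [a5.1, a5.2]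
  refine (Finset.sum_le_sum (fun k _ => h2 k)).trans ?_
  rw [Finset.sum_add_distrib, Finset.sum_const, Finset.card_univ, Fintype.card_fin, nsmul_eq_mul]
  have hd : (0 : ℝ) ≤ d := by positivity
  have e : v * ((i : ℝ) + r - i) = v * r := by ring
  rw [e]
  linarith

/-- For every dimension `d ≥ 1`, every non-constant law of the environment with all exponential
moments and every `β > 0`: for `κ < 1/(d+2)`, `lam < (1-dκ)/2` and `v < 1` there is `s > 0` such
that almost surely, for all large `l` and all lengths `n ≥ l`, the polymer measure of the set of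
paths which stay up to time `l` within distance `l^κ` of *some* polygonal line with at most `l^s`
corners and `ℓ¹`-speed at most `v` is at most `exp(-l^lam)`. -/
theorem result {d : ℕ} (hd : 1 ≤ d) {Ω : Type} [MeasurableSpace Ω] (P : Measure Ω)
    [IsProbabilityMeasure P] (ω : ℕ → (Fin d → ℤ) → Ω → ℝ)
    (hmeas : ∀ i y, Measurable (ω i y))
    (hindep : iIndepFun (fun s : ℕ × (Fin d → ℤ) => ω s.1 s.2) P)
    (hident : ∀ i y, IdentDistrib (ω i y) (ω 1 0) P P)
    (hexp : ∀ b : ℝ, Integrable (fun x => Real.exp (b * ω 1 0 x)) P)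
    (hnc : ¬ ∃ c : ℝ, ∀ᵐ x ∂P, ω 1 0 x = c) (β : ℝ) (hβ : 0 < β) (κ lam v : ℝ) (hκ : 0 < κ)
    (hκ2 : κ < 1 / ((d : ℝ) + 2)) (hlam : lam < (1 - d * κ) / 2) (hv0 : 0 ≤ v) (hv1 : v < 1) :
    ∃ s : ℝ, 0 < s ∧ ∀ᵐ x ∂P, ∀ᶠ l : ℕ in atTop, ∀ n, l ≤ n →
      polymerProb β (fun i y => ω i y x) n (near d n l ((l : ℝ) ^ s) v ((l : ℝ) ^ κ)) ≤
        Real.exp (-(l : ℝ) ^ lam) := by
  have h : IsEnv P ω := ⟨hmeas, hindep, hident⟩
  have hd2 : (0 : ℝ) < (d : ℝ) + 2 := by positivity
  have hd0 : (0 : ℝ) < d := by exact_mod_cast hd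
  rw [lt_div_iff₀ hd2] at hκ2
  set mx := max lam κ with hmx
  have hmx1 : lam ≤ mx := le_max_left _ _
  have hmx0 : κ ≤ mx := le_max_right _ _
  have hmxp : 0 < mx := by linarith
  have hmx2 : mx < (1 - d * κ) / 2 := max_lt hlam (by linarith)
  set g := (1 - d * κ) / 2 - mx with hg
  have hgp : 0 < g := by rw [hg]; linarith
  set κ' := κ + g / (4 * (d + 2)) with hκ'
  have hκκ' : κ < κ' := by
    have : 0 < g / (4 * (d + 2)) := by positivity
    rw [hκ']; linarith
  have hκ'0 : 0 < κ' := by linarith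
  have hdg : d * (g / (4 * ((d : ℝ) + 2))) ≤ g / 4 := by
    rw [← mul_div_assoc, div_le_div_iff₀ (by positivity) (by norm_num)]
    nlinarith
  have hgd : g / (4 * ((d : ℝ) + 2)) ≤ g / 4 := by
    apply div_le_div_of_nonneg_left hgp.le (by norm_num)
    nlinarith
  have hdκ' : d * κ' ≤ d * κ + g / 4 := by rw [hκ', mul_add]; linarith
  have hκ'le : κ' ≤ mx + g / 4 := by rw [hκ']; linarith
  set lam' := mx + g / 4 with hlam'
  have hll' : lam < lam' := by rw [hlam']; linarith
  have hlam'0 : 0 < lam' := by rw [hlam']; linarith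
  set ρ := d * κ' + g / 4 with hρ
  have hρ0 : 0 ≤ ρ := by rw [hρ]; positivity
  have hρd : d * κ' < ρ := by rw [hρ]; linarith
  have h1 : κ' + ρ / 2 < 1 / 2 := by
    have e : 1 / 2 = g + mx + d * κ / 2 := by rw [hg]; ring
    rw [e, hρ]; linarith
  have h2 : lam' + ρ / 2 < 1 / 2 := by
    have e : 1 / 2 = g + mx + d * κ / 2 := by rw [hg]; ring
    rw [e, hρ, hlam']; linarith
  obtain ⟨s, hs, l0, hc⟩ := core' (v := v) (lam := lam') hd hκ'0 hρ0 h1 h2 hv1 h hexp hnc
  set s' := min s lam' / 4 with hs'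
  have hmin : 0 < min s lam' := lt_min hs hlam'0
  have hs'0 : 0 < s' := by rw [hs']; linarith
  have hs's : 2 * s' < s := by
    have := min_le_left s lam'
    rw [hs']; linarith
  have hs'l : 2 * s' < lam' := by
    have := min_le_right s lam'
    rw [hs']; linarith
  -- representatives
  have hrep : ∀ q : ℕ × Finset (ℕ × (Fin d → ℤ)), ∃ φ : ℕ → Fin d → ℝ,
      (∃ ψ : ℕ → Fin d → ℝ, Polygonal q.1 ((q.1 : ℝ) ^ s') v ψ ∧ dat q.1 ψ = q.2) →
        Polygonal q.1 ((q.1 : ℝ) ^ s') v φ ∧ dat q.1 φ = q.2 := by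
    intro q
    by_cases hex : ∃ ψ : ℕ → Fin d → ℝ, Polygonal q.1 ((q.1 : ℝ) ^ s') v ψ ∧ dat q.1 ψ = q.2
    · obtain ⟨ψ, hψ⟩ := hex
      exact ⟨ψ, fun _ => hψ⟩
    · exact ⟨0, fun h => absurd h hex⟩
  choose φ hφ using hrep
  choose B hB1 hB2 using fun q : ℕ × Finset (ℕ × (Fin d → ℤ)) => hc q.1 0 0 β
    (fun i => if i ≤ q.1 then boxT (fl (φ q)) ⌊(q.1 : ℝ) ^ κ'⌋₊ i else ∅)
    (fun i => fl (φ q) (min i q.1))
  set U : ℕ → Finset (ℕ × (Fin d → ℤ)) := fun l => Finset.range (l + 1) ×ˢ
    Finset.Icc (fun _ : Fin d => -((3 * l : ℕ) : ℤ)) (fun _ => ((3 * l : ℕ) : ℤ)) with hU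
  set m : ℕ → ℕ := fun l => ⌊(l : ℝ) ^ s'⌋₊ + 2 with hm
  set Pw : ℕ → Finset (Finset (ℕ × (Fin d → ℤ))) := fun l =>
    (U l).powerset.filter (fun s => s.card ≤ m l) with hPw
  set F : ℕ → Finset (ℕ × Finset (ℕ × (Fin d → ℤ))) := fun l => ({l} : Finset ℕ) ×ˢ Pw l with hF
  have hcount : ∀ᶠ l : ℕ in atTop, ((Pw l).card : ℝ) ≤ Real.exp (3 * (l : ℝ) ^ (2 * s')) := by
    have q1 := pow_dom (s := s' / 2) (t := s') (by linarith) (((d : ℝ) + 1) * (2 / s' + 2))
    filter_upwards [q1, eventually_ge_atTop 1] with l r1 hl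
    have hl1R : (1 : ℝ) ≤ l := by exact_mod_cast hl
    have hl0R : (0 : ℝ) < l := by linarith
    have c1 : ((Pw l).card : ℝ) ≤ (((U l).card : ℝ) + 1) ^ (m l) := by
      have := card_small (U l) (m l)
      exact_mod_cast this
    have c2 : (U l).card = (l + 1) * (2 * (3 * l) + 1) ^ d := by
      rw [hU]
      simp only
      rw [Finset.card_product, Finset.card_range, card_box]
    have c3 : ((U l).card : ℝ) + 1 ≤ (7 * (l : ℝ)) ^ (d + 1) := by
      rw [c2]
      push_cast
      have e1 : (2 * (3 * (l : ℝ)) + 1) ^ d ≤ (7 * (l : ℝ)) ^ d :=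
        pow_le_pow_left₀ (by positivity) (by linarith) d
      have e2 : (1 : ℝ) ≤ (7 * (l : ℝ)) ^ d := one_le_pow₀ (by linarith)
      calc ((l : ℝ) + 1) * (2 * (3 * (l : ℝ)) + 1) ^ d + 1
          ≤ (2 * (l : ℝ)) * (7 * (l : ℝ)) ^ d + 1 * (7 * (l : ℝ)) ^ d := by
            gcongr
            · linarith
            · linarith
        _ ≤ (7 * (l : ℝ)) ^ (d + 1) := by
            rw [pow_succ]
            nlinarith
    have c4 : Real.log (7 * (l : ℝ)) ≤ (2 / s' + 2) * (l : ℝ) ^ (s' / 2) := by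
      have e1 : Real.log (7 * (l : ℝ)) = Real.log 7 + Real.log l :=
        Real.log_mul (by norm_num) hl0R.ne'
      have e2 : Real.log 7 ≤ 2 := by
        rw [← Real.log_exp 2]
        apply Real.log_le_log (by norm_num)
        have : Real.exp 2 = Real.exp 1 * Real.exp 1 := by rw [← Real.exp_add]; norm_num
        rw [this]
        have := Real.exp_one_gt_d9
        nlinarith
      have e3 : Real.log l ≤ (l : ℝ) ^ (s' / 2) / (s' / 2) :=
        Real.log_le_rpow_div hl0R.le (by linarith)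
      have e4 : (1 : ℝ) ≤ (l : ℝ) ^ (s' / 2) := Real.one_le_rpow hl1R (by linarith)
      have e5 : (l : ℝ) ^ (s' / 2) / (s' / 2) = 2 / s' * (l : ℝ) ^ (s' / 2) := by
        field_simp
      rw [e1, add_mul]
      rw [e5] at e3
      linarith
    have c5 : (7 * (l : ℝ)) ^ (d + 1) ≤ Real.exp ((l : ℝ) ^ s') := by
      rw [← Real.exp_log (show (0 : ℝ) < (7 * (l : ℝ)) ^ (d + 1) by positivity), Real.exp_le_exp,
        Real.log_pow]
      push_cast
      calc ((d : ℝ) + 1) * Real.log (7 * (l : ℝ))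
          ≤ ((d : ℝ) + 1) * ((2 / s' + 2) * (l : ℝ) ^ (s' / 2)) := by gcongr
        _ ≤ _ := by rw [← mul_assoc]; exact r1
    have c6 : (m l : ℝ) ≤ 3 * (l : ℝ) ^ s' := by
      rw [hm]
      push_cast
      have e1 : ((⌊(l : ℝ) ^ s'⌋₊ : ℕ) : ℝ) ≤ (l : ℝ) ^ s' := Nat.floor_le (by positivity)
      have e2 : (1 : ℝ) ≤ (l : ℝ) ^ s' := Real.one_le_rpow hl1R hs'0.le
      linarith
    calc ((Pw l).card : ℝ) ≤ (((U l).card : ℝ) + 1) ^ (m l) := c1
      _ ≤ (Real.exp ((l : ℝ) ^ s')) ^ (m l) :=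
          pow_le_pow_left₀ (by positivity) (c3.trans c5) _
      _ = Real.exp ((m l : ℝ) * (l : ℝ) ^ s') := by rw [← Real.exp_nat_mul]
      _ ≤ Real.exp (3 * (l : ℝ) ^ (2 * s')) := by
          rw [Real.exp_le_exp]
          have e1 : (l : ℝ) ^ (2 * s') = (l : ℝ) ^ s' * (l : ℝ) ^ s' := by
            rw [← Real.rpow_add hl0R]; ring_nf
          rw [e1, ← mul_assoc]
          gcongr
  have hbc := bc_family (P := P) F B summable_two (by
    have q1 := pow_dom hs's 4
    filter_upwards [hcount, q1, pow_exp hs'0 0, eventually_ge_atTop 1] with l c1 r1 r2 hl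
    have hl1R : (1 : ℝ) ≤ l := by exact_mod_cast hl
    have hb : ∀ q ∈ F l, P.real (B q) ≤ Real.exp (-(l : ℝ) ^ s) := by
      intro q hq
      rw [hF] at hq
      simp only [Finset.mem_product, Finset.mem_singleton] at hq
      have := hB1 q
      rw [hq.1] at this
      exact this
    refine (Finset.sum_le_sum hb).trans ?_
    rw [Finset.sum_const, nsmul_eq_mul]
    have hcard : (F l).card = (Pw l).card := by
      rw [hF]
      simp only
      rw [Finset.card_product, Finset.card_singleton, one_mul]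
    rw [hcard]
    rw [Real.rpow_zero, one_mul] at r2
    refine le_trans ?_ r2
    calc ((Pw l).card : ℝ) * Real.exp (-(l : ℝ) ^ s)
        ≤ Real.exp (3 * (l : ℝ) ^ (2 * s')) * Real.exp (-(l : ℝ) ^ s) := by gcongr
      _ ≤ Real.exp (-(l : ℝ) ^ s') := by
          rw [← Real.exp_add, Real.exp_le_exp]
          have : (l : ℝ) ^ s' ≤ (l : ℝ) ^ (2 * s') :=
            Real.rpow_le_rpow_of_exponent_le hl1R (by linarith)
          linarith)
  refine ⟨s', hs'0, ?_⟩
  have p1 := pow_dom (s := d * κ') (t := ρ) hρd (3 ^ d)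
  have p2 := pow_dom hll' 2
  have p3 := pow_dom hs'l 6
  have p4 := pow_dom hκκ' 3
  have p5 := pow_dom (s := κ) (t := 1) (by nlinarith) 1
  filter_upwards [hbc] with x hx
  filter_upwards [hx, hcount, p1, p2, p3, p4, p5, eventually_beta hs hβ, eventually_ge_atTop l0,
    eventually_ge_atTop 1] with l hxl c1 r1 r2 r3 r4 r5 hβl hll0 hl n hn
  have hl1R : (1 : ℝ) ≤ l := by exact_mod_cast hl
  have hl0R : (0 : ℝ) < l := by linarith
  have hlκ : (1 : ℝ) ≤ (l : ℝ) ^ κ := Real.one_le_rpow hl1R hκ.le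
  set D := ⌊(l : ℝ) ^ κ'⌋₊ with hD
  have hDle : (D : ℝ) ≤ (l : ℝ) ^ κ' := Nat.floor_le (by positivity)
  have hnκ1 : (1 : ℝ) ≤ (l : ℝ) ^ κ' := Real.one_le_rpow hl1R hκ'0.le
  -- each tube
  have hone : ∀ q ∈ Pw l, (∃ ψ : ℕ → Fin d → ℝ, Polygonal l ((l : ℝ) ^ s') v ψ ∧ dat l ψ = q) →
      polymerProb β (fun i y => ω i y x) n
        {w : Fin n → Step d | ∀ i ≤ l, pos w i ∈ boxT (fl (φ (l, q))) D i} ≤
        Real.exp (-(l : ℝ) ^ lam') := by
    intro q hq hex
    have hφq := (hφ (l, q) hex).1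
    have hT : Tube (fun i => if i ≤ l then boxT (fl (φ (l, q))) D i else ∅)
        (fun i => fl (φ (l, q)) (min i l)) D ((l : ℝ) ^ ρ) v := by
      refine tube_trunc hv0 (by positivity) (fun i _ y hy => mem_boxT.1 hy) (fun i _ => ?_)
        (fl_speed hφq)
      rw [card_boxT]
      push_cast
      calc (2 * (D : ℝ) + 1) ^ d ≤ (3 * (l : ℝ) ^ κ') ^ d := by
            apply pow_le_pow_left₀ (by positivity)
            linarith
        _ = 3 ^ d * (l : ℝ) ^ (d * κ') := by
            rw [mul_pow, mul_comm (d : ℝ) κ', Real.rpow_mul hl0R.le, Real.rpow_natCast]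
        _ ≤ (l : ℝ) ^ ρ := r1
    have hmem : (l, q) ∈ F l := by
      rw [hF]
      simp only [Finset.mem_product, Finset.mem_singleton]
      exact ⟨trivial, hq⟩
    have hmain := hB2 (l, q) hll0 hβl.1 hβl.2 hT x (hxl _ hmem)
    simp only at hmain
    rw [shift_zero] at hmain
    have := link_zero (β := β) (η := fun i y => ω i y x) (l := l) (n := n) hd hn hmain
    refine le_trans (polymerProb_mono hd β _ n ?_) this
    intro w hw i hi
    simp only [if_pos hi]
    exact hw i hi
  -- covering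
  set Q := (Pw l).filter (fun q => ∃ ψ : ℕ → Fin d → ℝ,
    Polygonal l ((l : ℝ) ^ s') v ψ ∧ dat l ψ = q) with hQ
  have hcover : ∀ w ∈ near d n l ((l : ℝ) ^ s') v ((l : ℝ) ^ κ), ∃ q ∈ Q,
      w ∈ {w : Fin n → Step d | ∀ i ≤ l, pos w i ∈ boxT (fl (φ (l, q))) D i} := by
    rintro w ⟨ψ, hψ, hw⟩
    have hqP : dat l ψ ∈ Pw l := by
      rw [hPw]
      simp only [Finset.mem_filter, Finset.mem_powerset]
      constructor
      · intro y hy
        obtain ⟨i, hi, rfl⟩ := Finset.mem_image.1 hy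
        have hil : i ≤ l := by
          unfold cor corners at hi
          simp only [Finset.mem_insert, Finset.mem_filter, Finset.mem_Ioo] at hi
          rcases hi with h3 | h3 | h3
          · omega
          · omega
          · omega
        rw [hU]
        simp only [Finset.mem_product, Finset.mem_range]
        refine ⟨by omega, ?_⟩
        rw [mem_box]
        intro k
        have a1 := hw i hil k
        have h0 : Reach 0 (0 : Fin d → ℤ) := fun k => by simp
        have a2 := h0.step w (i := i) (by omega) k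
        simp only [zero_add] at a2
        have a3 : |(pos w i k : ℝ)| ≤ i := by exact_mod_cast a2
        have a4 : (i : ℝ) ≤ l := by exact_mod_cast hil
        rw [one_mul, Real.rpow_one] at r5
        have a5 := abs_le.1 a1
        have a6 := abs_le.1 a3
        have f1 := Int.floor_le (ψ i k)
        have f2 := Int.lt_floor_add_one (ψ i k)
        have g1 : ((⌊ψ i k⌋ : ℤ) : ℝ) ≤ 3 * l := by linarith [a5.1, a6.2]
        have g2 : -(3 * (l : ℝ)) ≤ ((⌊ψ i k⌋ : ℤ) : ℝ) := by linarith [a5.2, a6.1]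
        rw [abs_le]
        constructor
        · have : ((-((3 * l : ℕ) : ℤ) : ℤ) : ℝ) ≤ ((⌊ψ i k⌋ : ℤ) : ℝ) := by
            push_cast
            linarith
          exact_mod_cast this
        · have : ((⌊ψ i k⌋ : ℤ) : ℝ) ≤ (((3 * l : ℕ) : ℤ) : ℝ) := by
            push_cast
            linarith
          exact_mod_cast this
      · refine Finset.card_image_le.trans ?_
        have e1 : (corners l ψ).card ≤ ⌊(l : ℝ) ^ s'⌋₊ := Nat.le_floor hψ.corn
        unfold cor
        have e2 := Finset.card_insert_le 0 (insert l (corners l ψ))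
        have e3 := Finset.card_insert_le l (corners l ψ)
        rw [hm]
        simp only
        omega
    refine ⟨dat l ψ, Finset.mem_filter.2 ⟨hqP, ψ, hψ, rfl⟩, ?_⟩
    have hφψ := (hφ (l, dat l ψ) ⟨ψ, hψ, rfl⟩).2
    have hclose := dat_close hφψ
    intro i hi
    rw [mem_boxT]
    intro k
    apply int_floor
    have a1 := hw i hi k
    have a2 := hclose i hi k
    have f1 := Int.floor_le (φ (l, dat l ψ) i k)
    have f2 := Int.lt_floor_add_one (φ (l, dat l ψ) i k)
    have a3 := abs_le.1 a1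
    have a4 := abs_le.1 a2
    unfold fl
    push_cast
    have hb : (l : ℝ) ^ κ + 2 ≤ (l : ℝ) ^ κ' := by linarith
    rw [abs_le]
    constructor <;> linarith [a3.1, a3.2, a4.1, a4.2]
  have hsum : polymerProb β (fun i y => ω i y x) n (near d n l ((l : ℝ) ^ s') v ((l : ℝ) ^ κ)) ≤
      ∑ q ∈ Q, polymerProb β (fun i y => ω i y x) n
        {w : Fin n → Step d | ∀ i ≤ l, pos w i ∈ boxT (fl (φ (l, q))) D i} := by
    simp_rw [polymerProb_eq hd]
    rw [← Finset.sum_div]
    apply div_le_div_of_nonneg_right _ (ZF_pos hd β _ n).le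
    rw [Finset.sum_comm]
    apply Finset.sum_le_sum
    intro w _
    have hnn : ∀ q ∈ Q, 0 ≤ ({w : Fin n → Step d | ∀ i ≤ l, pos w i ∈
        boxT (fl (φ (l, q))) D i} : Set (Fin n → Step d)).indicator
        (fun w => Real.exp (β * energy (fun i y => ω i y x) w)) w :=
      fun q _ => Set.indicator_nonneg (fun _ _ => (Real.exp_pos _).le) _
    rw [Set.indicator_apply]
    split_ifs with hw
    · obtain ⟨q, hq, hwq⟩ := hcover w hw
      refine le_trans (le_of_eq ?_) (Finset.single_le_sum hnn hq)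
      rw [Set.indicator_of_mem hwq]
    · exact Finset.sum_nonneg hnn
  refine hsum.trans ?_
  have hQc : (Q.card : ℝ) ≤ Real.exp (3 * (l : ℝ) ^ (2 * s')) := by
    refine le_trans ?_ c1
    exact_mod_cast Finset.card_filter_le _ _
  calc ∑ q ∈ Q, polymerProb β (fun i y => ω i y x) n
        {w : Fin n → Step d | ∀ i ≤ l, pos w i ∈ boxT (fl (φ (l, q))) D i}
      ≤ ∑ q ∈ Q, Real.exp (-(l : ℝ) ^ lam') :=
        Finset.sum_le_sum fun q hq => hone q (Finset.mem_filter.1 hq).1 (Finset.mem_filter.1 hq).2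
    _ = Q.card * Real.exp (-(l : ℝ) ^ lam') := by rw [Finset.sum_const, nsmul_eq_mul]
    _ ≤ Real.exp (3 * (l : ℝ) ^ (2 * s')) * Real.exp (-(l : ℝ) ^ lam') := by gcongr
    _ ≤ Real.exp (-(l : ℝ) ^ lam) := by
        rw [← Real.exp_add, Real.exp_le_exp]
        linarith

end Pool.Agent.Results.MP_7d29a1_pr.PolygonalLines
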