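import Pool.Agent.Q220.DPW.Fam

/-!
Directed polymers on `ℤ^d` with a general i.i.d. environment: the polymer does not stay in
deterministic thin sets.  The definitions (walk, energy, partition function, polymer measure) are
in `Pool/Agent/TH967/DP/Defs.lean`.
-/

set_option autoImplicit false

namespace Pool.Agent.Results.MP_7d29a1_pr.ThinSets

open MeasureTheory ProbabilityTheory Filter TH967.DP Pool.Agent.Q220.DPW

/-- the event `S_i ∈ A i` for all `i ≤ l`, for walks of `n` steps -/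
def stays {d : ℕ} (n l : ℕ) (A : ℕ → Finset (Fin d → ℤ)) : Set (Fin n → Step d) :=
  {w | ∀ i ≤ l, pos w i ∈ A i}

/-- For every dimension `d ≥ 1`, every non-constant law of the environment with all exponential
moments and every `β > 0`: let `κ > 0`, `ρ ≥ 0`, `κ + ρ/2 < 1/2`, `lam < (1-ρ)/2`, `0 ≤ v < 1`, and
for every `l` let `A l i`, `i ≤ l`, be deterministic sets with at most `l^ρ` points, contained in
the sup-norm balls of radius `l^κ` around points `c l i` which move with `ℓ¹`-speed at most `v` (up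
to the constant `2d`). Then almost surely, for all large `l` and all lengths `n ≥ l`, the polymer
measure of `{S_i ∈ A l i for all i ≤ l}` is at most `exp(-l^lam)`. -/
theorem result {d : ℕ} (hd : 1 ≤ d) {Ω : Type} [MeasurableSpace Ω] (P : Measure Ω)
    [IsProbabilityMeasure P] (ω : ℕ → (Fin d → ℤ) → Ω → ℝ)
    (hmeas : ∀ i y, Measurable (ω i y))
    (hindep : iIndepFun (fun s : ℕ × (Fin d → ℤ) => ω s.1 s.2) P)
    (hident : ∀ i y, IdentDistrib (ω i y) (ω 1 0) P P)
    (hexp : ∀ b : ℝ, Integrable (fun x => Real.exp (b * ω 1 0 x)) P)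
    (hnc : ¬ ∃ c : ℝ, ∀ᵐ x ∂P, ω 1 0 x = c) (β : ℝ) (hβ : 0 < β)
    (κ ρ lam v : ℝ) (hκ : 0 < κ) (hρ : 0 ≤ ρ) (h1 : κ + ρ / 2 < 1 / 2) (h2 : lam < (1 - ρ) / 2)
    (hv0 : 0 ≤ v) (hv1 : v < 1)
    (A : ℕ → ℕ → Finset (Fin d → ℤ)) (c : ℕ → ℕ → Fin d → ℤ)
    (hnear : ∀ l i, i ≤ l → ∀ y ∈ A l i, ∀ k, |((y k - c l i k : ℤ) : ℝ)| ≤ (l : ℝ) ^ κ)
    (hcard : ∀ l i, i ≤ l → ((A l i).card : ℝ) ≤ (l : ℝ) ^ ρ)
    (hspeed : ∀ l i j, i ≤ j → j ≤ l →
      ((∑ k, |c l j k - c l i k| : ℤ) : ℝ) ≤ v * (j - i) + 2 * d) :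
    ∀ᵐ x ∂P, ∀ᶠ l : ℕ in atTop, ∀ n, l ≤ n →
      polymerProb β (fun i y => ω i y x) n (stays n l (A l)) ≤ Real.exp (-(l : ℝ) ^ lam) := by
  classical
  have h : IsEnv P ω := ⟨hmeas, hindep, hident⟩
  obtain ⟨s, hs, l0, hc⟩ := core' (v := v) (lam := lam) hd hκ hρ h1 (by linarith) hv1 h hexp hnc
  choose B hB1 hB2 using fun l => hc l 0 0 β (fun i => if i ≤ l then A l i else ∅)
    (fun i => c l (min i l))
  have hbc := bc (P := P) (B := B) summable_two (by
    filter_upwards [pow_exp hs 0] with n hn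
    rw [Real.rpow_zero, one_mul] at hn
    exact (hB1 n).trans hn)
  filter_upwards [hbc] with x hx
  filter_upwards [hx, eventually_beta hs hβ, eventually_ge_atTop l0] with l hxl hβl hll0 n hn
  have hT : Tube (fun i => if i ≤ l then A l i else ∅) (fun i => c l (min i l))
      ⌊(l : ℝ) ^ κ⌋₊ ((l : ℝ) ^ ρ) v := by
    refine tube_trunc hv0 (by positivity) (fun i hi y hy k => int_floor (hnear l i hi y hy k))
      (hcard l) (hspeed l)
  have hmain := hB2 l hll0 hβl.1 hβl.2 hT x hxl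
  rw [shift_zero] at hmain
  have := link_zero (β := β) (η := fun i y => ω i y x) (l := l) (n := n) hd hn hmain
  refine le_trans (polymerProb_mono hd β _ n ?_) this
  intro w hw i hi
  simp only [if_pos hi]
  exact hw i hi

end Pool.Agent.Results.MP_7d29a1_pr.ThinSets
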